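import Mathlib
import Pool.Agent.H523R3.TransMain

/-!
# Circles have transversal ratio at most `1/2 + 1/(2n)`
-/

set_option autoImplicit false

namespace Pool.Agent.Y362.TR

open Set Filter Topology Pool.Agent.H523R3.Trans

/-- the realisation minus a vertex embeds in the line -/
lemma exists_line {n : ℕ} {Δ : Set (Finset (Fin n))} (h : realization Δ ≃ₜ Metric.sphere (0 : E 2) 1)
    (x0 : realization Δ) : ∃ φ : realization Δ → ℝ, ContinuousOn φ {x0}ᶜ ∧ InjOn φ {x0}ᶜ := by
  have : Fact (Module.finrank ℝ (E 2) = 1 + 1) := ⟨by simp⟩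
  let st := stereographic' 1 (h x0)
  refine ⟨fun x => (st (h x)) 0, ?_, ?_⟩
  · have h1 : ContinuousOn (fun x => st (h x)) {x0}ᶜ := by
      apply ContinuousOn.comp (t := st.source) st.continuousOn h.continuous.continuousOn
      intro x hx
      rw [stereographic'_source]
      intro hcon
      exact hx (h.injective hcon)
    exact (continuous_apply 0).comp_continuousOn
      ((PiLp.continuous_ofLp 2 _).comp_continuousOn h1)
  · intro x hx y hy hxy
    have hxs : h x ∈ st.source := by
      rw [stereographic'_source]
      intro hcon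
      exact hx (h.injective hcon)
    have hys : h y ∈ st.source := by
      rw [stereographic'_source]
      intro hcon
      exact hy (h.injective hcon)
    apply h.injective
    apply st.injOn hxs hys
    ext i
    fin_cases i
    exact hxy

/-- the vertex `v` as a point of the realisation -/
noncomputable def ev {n : ℕ} {Δ : Set (Finset (Fin n))} (hΔ : IsComplex Δ) (v : Fin n) :
    realization Δ :=
  ⟨Pi.single v 1, by
    refine ⟨fun i => ?_, by simp, ?_⟩
    · by_cases h : i = v
      · subst h; simp
      · simp [Pi.single_eq_of_ne h]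
    · have : Finset.univ.filter (fun i => (Pi.single v (1 : ℝ) : Fin n → ℝ) i ≠ 0) = {v} := by
        ext i
        simp only [Finset.mem_filter, Finset.mem_univ, true_and, Finset.mem_singleton]
        by_cases h : i = v
        · subst h; simp
        · simp [Pi.single_eq_of_ne h, h]
      rw [this]
      exact hΔ.vert v⟩

/-- the points of the edge between `a` and `b` -/
lemma edge_mem {n : ℕ} {Δ : Set (Finset (Fin n))} (hΔ : IsComplex Δ) {a b : Fin n} (hab : a ≠ b)
    (he : {a, b} ∈ Δ) (t : ℝ) (ht : t ∈ Icc (0 : ℝ) 1) :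
    (fun i => if i = a then 1 - t else if i = b then t else 0) ∈ realization Δ := by
  refine ⟨fun i => ?_, ?_, ?_⟩
  · dsimp only
    split_ifs
    · linarith [ht.2]
    · exact ht.1
    · exact le_rfl
  · rw [← Finset.sum_subset (Finset.subset_univ {a, b})]
    · rw [Finset.sum_pair hab]
      simp [hab.symm]
    · intro x _ hx
      simp only [Finset.mem_insert, Finset.mem_singleton, not_or] at hx
      simp [hx.1, hx.2]
  · apply hΔ.down _ he
    intro i hi
    simp only [Finset.mem_filter, Finset.mem_univ, true_and] at hi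
    simp only [Finset.mem_insert, Finset.mem_singleton]
    by_contra hcon
    push Not at hcon
    apply hi
    simp [hcon.1, hcon.2]

/-- No vertex lies between the end points of an edge. -/
lemma not_between {n : ℕ} {Δ : Set (Finset (Fin n))} (hΔ : IsComplex Δ) {v0 : Fin n}
    {φ : realization Δ → ℝ} (hφ : ContinuousOn φ {ev hΔ v0}ᶜ) (hinj : InjOn φ {ev hΔ v0}ᶜ)
    {a b c : Fin n} (ha : a ≠ v0) (hb : b ≠ v0) (hc : c ≠ v0) (hab : a ≠ b) (he : {a, b} ∈ Δ)
    (hca : c ≠ a) (hcb : c ≠ b) : ¬ (φ (ev hΔ a) < φ (ev hΔ c) ∧ φ (ev hΔ c) < φ (ev hΔ b)) := by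
  rintro ⟨h1, h2⟩
  -- the path
  let γ : Icc (0 : ℝ) 1 → realization Δ := fun t =>
    ⟨fun i => if i = a then 1 - (t : ℝ) else if i = b then (t : ℝ) else 0,
      edge_mem hΔ hab he t t.2⟩
  have hγ : Continuous γ := by
    apply Continuous.subtype_mk
    apply continuous_pi
    intro i
    by_cases hia : i = a
    · simp only [hia, if_true]
      exact continuous_const.sub continuous_subtype_val
    · by_cases hib : i = b
      · simp only [hib, hab.symm, if_false, if_true]
        exact continuous_subtype_val
      · simp only [hia, hib, if_false]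
        exact continuous_const
  have hγ0 : ∀ t, γ t ∈ ({ev hΔ v0}ᶜ : Set (realization Δ)) := by
    intro t hcon
    have h3 : (γ t).1 v0 = 1 := by
      rw [mem_singleton_iff.1 hcon]
      simp [ev]
    simp [γ, ha.symm, hb.symm] at h3
  have hcont : Continuous (fun t => φ (γ t)) := hφ.comp_continuous hγ hγ0
  have hγa : γ ⟨0, by simp⟩ = ev hΔ a := by
    apply Subtype.ext
    funext i
    simp only [γ, ev]
    by_cases hia : i = a
    · subst hia; simp
    · rw [Pi.single_eq_of_ne hia]; simp [hia]
  have hγb : γ ⟨1, by simp⟩ = ev hΔ b := by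
    apply Subtype.ext
    funext i
    simp only [γ, ev]
    by_cases hia : i = a
    · subst hia
      rw [Pi.single_eq_of_ne hab]; simp
    · by_cases hib : i = b
      · subst hib; simp [hia]
      · rw [Pi.single_eq_of_ne hib]; simp [hia, hib]
  have hpre : IsPreconnected (univ : Set (Icc (0 : ℝ) 1)) := isPreconnected_univ
  have hiv := hpre.intermediate_value (mem_univ ⟨0, by simp⟩) (mem_univ ⟨1, by simp⟩)
    hcont.continuousOn
  have hmem : φ (ev hΔ c) ∈ Icc (φ (γ ⟨0, by simp⟩)) (φ (γ ⟨1, by simp⟩)) := by
    rw [hγa, hγb]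
    exact ⟨h1.le, h2.le⟩
  obtain ⟨t, -, ht⟩ := hiv hmem
  have hcne : ev hΔ c ∈ ({ev hΔ v0}ᶜ : Set (realization Δ)) := by
    intro hcon
    have h3 : (ev hΔ c).1 c = (ev hΔ v0).1 c := by rw [mem_singleton_iff.1 hcon]
    simp [ev, Pi.single_eq_of_ne hc] at h3
  have heq := hinj (hγ0 t) hcne ht
  have h3 : (γ t).1 c = 1 := by rw [heq]; simp [ev]
  simp [γ, hca, hcb] at h3

/-- There are no isolated vertices. -/
lemma no_isolated {n : ℕ} {Δ : Set (Finset (Fin n))} (hΔ : IsComplex Δ)
    (h : realization Δ ≃ₜ Metric.sphere (0 : E 2) 1) {a v0 : Fin n} (hav : a ≠ v0) :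
    ¬ IsFacet Δ {a} := by
  intro hfac
  have hconn : PreconnectedSpace (Metric.sphere (0 : E 2) 1) := by
    apply isPreconnected_iff_preconnectedSpace.1
    apply isPreconnected_sphere
    rw [← Module.finrank_eq_rank]
    simp
  have hconn' : IsPreconnected (univ : Set (realization Δ)) := by
    have h1 : IsPreconnected (univ : Set (Metric.sphere (0 : E 2) 1)) := isPreconnected_univ
    have h2 := h1.image h.symm h.symm.continuous.continuousOn
    rwa [image_univ, h.symm.surjective.range_eq] at h2
  -- a point with positive coordinate at `a` is the vertex `a`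
  have hpt : ∀ x : realization Δ, x.1 a ≠ 0 → x.1 a = 1 := by
    intro x hx
    obtain ⟨h1, h2, h3⟩ := x.2
    have h4 : ({a} : Finset (Fin n)) ⊆ Finset.univ.filter (fun i => x.1 i ≠ 0) := by
      rw [Finset.singleton_subset_iff]
      simp [hx]
    have h5 := hfac.2 _ h3 h4
    rw [← h2]
    symm
    apply Finset.sum_eq_single a
    · intro b _ hba
      by_contra hb
      have : b ∈ Finset.univ.filter (fun i => x.1 i ≠ 0) := by simp [hb]
      rw [h5] at this
      exact hba (Finset.mem_singleton.1 this)
    · intro hcon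
      exact absurd (Finset.mem_univ a) hcon
  have hcont : Continuous (fun x : realization Δ => x.1 a) :=
    (continuous_apply a).comp continuous_subtype_val
  have hiv := hconn'.intermediate_value (mem_univ (ev hΔ v0)) (mem_univ (ev hΔ a))
    hcont.continuousOn
  have h0 : (ev hΔ v0).1 a = 0 := by simp [ev, Pi.single_eq_of_ne hav]
  have h1 : (ev hΔ a).1 a = 1 := by simp [ev]
  rw [h0, h1] at hiv
  obtain ⟨x, -, hx⟩ := hiv (show (1 / 2 : ℝ) ∈ Icc (0 : ℝ) 1 by constructor <;> norm_num)
  have hx' : x.1 a = 1 / 2 := hx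
  have h2 := hpt x (by rw [hx']; norm_num)
  rw [hx'] at h2
  norm_num at h2

/-- A circle with `n` vertices has a transversal with at most `(n+1)/2` vertices. -/
theorem circle_transversal {n : ℕ} {Δ : Set (Finset (Fin n))} (hΔ : IsSimplicialSphere 2 Δ) :
    2 * transversalNumber Δ ≤ n + 1 := by
  classical
  obtain ⟨hc, ⟨h⟩⟩ := hΔ
  -- there is a vertex
  obtain ⟨y⟩ : Nonempty (Metric.sphere (0 : E 2) 1) := by
    have := (NormedSpace.sphere_nonempty (E := E 2) (x := 0) (r := 1)).2 zero_le_one
    exact this.to_subtype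
  obtain ⟨v0, -⟩ : ∃ v0 : Fin n, (h.symm y).1 v0 ≠ 0 := by
    by_contra hcon
    push Not at hcon
    have := (h.symm y).2.2.1
    simp [hcon] at this
  obtain ⟨φ, hφ, hinj⟩ := exists_line h (ev hc v0)
  let f : Fin n → ℝ := fun v => φ (ev hc v)
  have hev : ∀ v, v ≠ v0 → ev hc v ∈ ({ev hc v0}ᶜ : Set (realization Δ)) := by
    intro v hv hcon
    have h3 : (ev hc v).1 v = (ev hc v0).1 v := by rw [mem_singleton_iff.1 hcon]
    simp [ev, Pi.single_eq_of_ne hv] at h3
  have hfinj : ∀ u v, u ≠ v0 → v ≠ v0 → f u = f v → u = v := by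
    intro u v hu hv huv
    have h1 := hinj (hev u hu) (hev v hv) huv
    by_contra hne
    have h3 : (ev hc u).1 u = (ev hc v).1 u := by rw [h1]
    simp [ev, Pi.single_eq_of_ne hne] at h3
  let r : Fin n → ℕ := fun v => (Finset.univ.filter (fun c => c ≠ v0 ∧ f c < f v)).card
  have hstep : ∀ a b, a ≠ v0 → b ≠ v0 → {a, b} ∈ Δ → f a < f b → r b = r a + 1 := by
    intro a b ha hb he hlt
    have hab : a ≠ b := by
      rintro rfl
      exact lt_irrefl _ hlt
    have : Finset.univ.filter (fun c => c ≠ v0 ∧ f c < f b) =
        insert a (Finset.univ.filter (fun c => c ≠ v0 ∧ f c < f a)) := by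
      ext c
      simp only [Finset.mem_filter, Finset.mem_univ, true_and, Finset.mem_insert]
      constructor
      · rintro ⟨hc0, hcb⟩
        by_cases hca : c = a
        · exact Or.inl hca
        · right
          refine ⟨hc0, ?_⟩
          rcases lt_trichotomy (f c) (f a) with h1 | h1 | h1
          · exact h1
          · exact absurd (hfinj c a hc0 ha h1) hca
          · have hcb' : c ≠ b := by
              rintro rfl
              exact lt_irrefl _ hcb
            exact absurd ⟨h1, hcb⟩ (not_between hc hφ hinj ha hb hc0 hab he hca hcb')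
      · rintro (rfl | ⟨hc0, hca⟩)
        · exact ⟨ha, hlt⟩
        · exact ⟨hc0, hca.trans hlt⟩
    show (Finset.univ.filter (fun c => c ≠ v0 ∧ f c < f b)).card = _
    rw [this, Finset.card_insert_of_notMem]
    simp
  have hpar : ∀ a b, a ≠ v0 → b ≠ v0 → a ≠ b → {a, b} ∈ Δ → r a % 2 ≠ r b % 2 := by
    intro a b ha hb hab he
    rcases lt_trichotomy (f a) (f b) with h1 | h1 | h1
    · have := hstep a b ha hb he h1
      omega
    · exact absurd (hfinj a b ha hb h1) hab
    · have := hstep b a hb ha (by rwa [Finset.pair_comm]) h1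
      omega
  -- the two candidates
  let T : ℕ → Finset (Fin n) := fun e =>
    insert v0 (Finset.univ.filter (fun v => v ≠ v0 ∧ r v % 2 = e))
  have hT : ∀ e, e < 2 → IsTransversal Δ (T e) := by
    intro e he s hs
    by_cases hv0 : v0 ∈ s
    · exact ⟨v0, hv0, Finset.mem_insert_self _ _⟩
    · have hne : s.Nonempty := by
        by_contra hcon
        rw [Finset.not_nonempty_iff_eq_empty] at hcon
        have := hs.2 {v0} (hc.vert v0) (by rw [hcon]; exact Finset.empty_subset _)
        rw [hcon] at this
        exact Finset.singleton_ne_empty _ this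
      obtain ⟨a, ha⟩ := hne
      have ha0 : a ≠ v0 := by
        rintro rfl
        exact hv0 ha
      have hex : ∃ b ∈ s, b ≠ a := by
        by_contra hcon
        push Not at hcon
        have : s = {a} := by
          ext b
          rw [Finset.mem_singleton]
          exact ⟨fun hb => hcon b hb, fun hb => hb ▸ ha⟩
        rw [this] at hs
        exact no_isolated hc h ha0 hs
      obtain ⟨b, hb, hba⟩ := hex
      have hb0 : b ≠ v0 := by
        rintro rfl
        exact hv0 hb
      have hedge : ({a, b} : Finset (Fin n)) ∈ Δ := by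
        apply hc.down s hs.1
        intro x hx
        rw [Finset.mem_insert, Finset.mem_singleton] at hx
        rcases hx with rfl | rfl
        · exact ha
        · exact hb
      have hp := hpar a b ha0 hb0 hba.symm hedge
      by_cases hra : r a % 2 = e
      · refine ⟨a, ha, Finset.mem_insert_of_mem ?_⟩
        simp [ha0, hra]
      · refine ⟨b, hb, Finset.mem_insert_of_mem ?_⟩
        simp only [Finset.mem_filter, Finset.mem_univ, true_and]
        refine ⟨hb0, ?_⟩
        omega
  have hle : ∀ e, e < 2 → transversalNumber Δ ≤ (T e).card := fun e he =>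
    Nat.sInf_le ⟨T e, hT e he, rfl⟩
  have hcards : (T 0).card + (T 1).card = n + 1 := by
    have h1 : ∀ e, (T e).card = (Finset.univ.filter (fun v => v ≠ v0 ∧ r v % 2 = e)).card + 1 := by
      intro e
      apply Finset.card_insert_of_notMem
      simp
    have h2 : (Finset.univ.filter (fun v => v ≠ v0 ∧ r v % 2 = 0)).card +
        (Finset.univ.filter (fun v => v ≠ v0 ∧ r v % 2 = 1)).card + 1 = n := by
      have h3 : Finset.univ.filter (fun v => v ≠ v0 ∧ r v % 2 = 0) ∪
          Finset.univ.filter (fun v => v ≠ v0 ∧ r v % 2 = 1) = Finset.univ.erase v0 := by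
        ext v
        simp only [Finset.mem_union, Finset.mem_filter, Finset.mem_univ, true_and,
          Finset.mem_erase]
        constructor
        · rintro (h | h)
          · exact ⟨h.1, trivial⟩
          · exact ⟨h.1, trivial⟩
        · rintro ⟨h, -⟩
          have : r v % 2 = 0 ∨ r v % 2 = 1 := by omega
          rcases this with h' | h'
          · exact Or.inl ⟨h, h'⟩
          · exact Or.inr ⟨h, h'⟩
      rw [← Finset.card_union_of_disjoint, h3, Finset.card_erase_of_mem (Finset.mem_univ _),
        Finset.card_univ, Fintype.card_fin]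
      · have := v0.pos
        omega
      · rw [Finset.disjoint_left]
        intro v h4 h5
        simp only [Finset.mem_filter, Finset.mem_univ, true_and] at h4 h5
        omega
    rw [h1, h1]
    omega
  have := hle 0 (by omega)
  have := hle 1 (by omega)
  omega

lemma limsup_le_half (A : ℕ → Set ℝ) (h0 : ∀ n, ∀ t ∈ A n, 0 ≤ t)
    (hle : ∀ n, ∀ t ∈ A n, 2 * (n * t) ≤ n + 1) :
    limsup (fun n => sSup (A n)) atTop ≤ 1 / 2 := by
  apply le_of_forall_pos_le_add
  intro ε hε
  refine limsup_le_of_le (IsCoboundedUnder.of_frequently_ge (a := 0)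
    (Frequently.of_forall fun n => Real.sSup_nonneg (h0 n))) ?_
  obtain ⟨q, hq⟩ := exists_nat_gt (1 / ε)
  have hqpos : (0 : ℝ) < q := lt_trans (by positivity) hq
  filter_upwards [eventually_ge_atTop q] with n hn
  apply Real.sSup_le _ (by positivity)
  intro t ht
  have h1 := hle n t ht
  have hnR : (q : ℝ) ≤ n := by exact_mod_cast hn
  have hn0 : (0 : ℝ) < n := by linarith
  have h2 : 1 ≤ ε * n := by
    rw [div_lt_iff₀ hε] at hq
    nlinarith
  have h3 : n * t ≤ n * (1 / 2 + ε) := by linarith
  exact le_of_mul_le_mul_left h3 hn0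

theorem tauS_two_le_half : tauS 2 ≤ 1 / 2 := by
  apply limsup_le_half
  · rintro n t ⟨Δ, -, rfl⟩
    exact transversalRatio_nonneg _
  · rintro n t ⟨Δ, hΔ, rfl⟩
    have h1 := circle_transversal hΔ
    unfold transversalRatio
    rcases Nat.eq_zero_or_pos n with hn | hn
    · subst hn; simp
    · have hn0 : (0 : ℝ) < n := by exact_mod_cast hn
      have h2 : 2 * (transversalNumber Δ : ℝ) ≤ n + 1 := by exact_mod_cast h1
      have h3 : (n : ℝ) * ((transversalNumber Δ : ℝ) / n) = transversalNumber Δ := by
        field_simp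
      rw [h3]
      exact h2

theorem tauP_two_le_half : tauP 2 ≤ 1 / 2 := by
  apply limsup_le_half
  · rintro n t ⟨p, -, rfl⟩
    exact transversalRatio_nonneg _
  · rintro n t ⟨p, hp, rfl⟩
    have h1 := circle_transversal (isSimplicialSphere_boundary (by omega) hp)
    unfold transversalRatio
    rcases Nat.eq_zero_or_pos n with hn | hn
    · subst hn; simp
    · have hn0 : (0 : ℝ) < n := by exact_mod_cast hn
      have h2 : 2 * (transversalNumber (boundary p) : ℝ) ≤ n + 1 := by exact_mod_cast h1
      have h3 : (n : ℝ) * ((transversalNumber (boundary p) : ℝ) / n) =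
          transversalNumber (boundary p) := by
        field_simp
      rw [h3]
      exact h2

end Pool.Agent.Y362.TR
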