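import Mathlib
import Pool.Agent.H523R3.TransMain

/-!
# Simplicial 3-polytopes with transversal ratio tending to one half

The polytope has `4 K` vertices, in `K` blocks of four: the block `i` consists of the vertices
`4 i, 4 i + 1, 4 i + 2, 4 i + 3`, which span a tetrahedron; two of its facets are facets of the
polytope, the other two are replaced by octahedral bands to the neighbouring blocks.
-/

set_option autoImplicit false

namespace Pool.Agent.Y362.TR

open Set Filter Topology Pool.Agent.H523R3.Frames Pool.Agent.H523R3.Trans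

/-- the three height functions, in terms of block number `i` and place `j` in the block -/
def ht (K : ℕ) : ℕ → ℕ → ℕ → ℤ
  | 0, i, 0 => 4 * i
  | 0, i, 1 => 4 * i + 1
  | 0, i, 2 => 8 * K + 4 - 4 * i
  | 0, i, _ => 8 * K + 3 - 4 * i
  | 1, i, 0 => 8 * K + 4 - 4 * i
  | 1, i, 1 => 4 * i
  | 1, i, 2 => 4 * i + 1
  | 1, i, _ => 4 * i + 2
  | _, i, 0 => 4 * i + 1
  | _, i, 1 => 8 * K + 4 - 4 * i
  | _, i, 2 => 4 * i
  | _, i, _ => 4 * i + 2

/-- the height functions on the vertices -/
def Fh (K : ℕ) : Fin 3 → Fin (4 * K) → ℤ := fun k v => ht K k (v / 4) (v % 4)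

/-- the vertex `j` of block `i` -/
def vx (K i j : ℕ) (hi : i < K) (hj : j < 4) : Fin (4 * K) := ⟨4 * i + j, by omega⟩

lemma vx_div {K i j : ℕ} (hi : i < K) (hj : j < 4) : ((vx K i j hi hj : Fin (4 * K)) : ℕ) / 4 = i := by
  simp only [vx]; omega

lemma vx_mod {K i j : ℕ} (hi : i < K) (hj : j < 4) : ((vx K i j hi hj : Fin (4 * K)) : ℕ) % 4 = j := by
  simp only [vx]; omega

lemma Fh_vx {K i j : ℕ} (k : Fin 3) (hi : i < K) (hj : j < 4) : Fh K k (vx K i j hi hj) = ht K k i j := by
  simp only [Fh, vx_div, vx_mod]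

lemma exists_vx {K : ℕ} (v : Fin (4 * K)) : ∃ (i j : ℕ) (hi : i < K) (hj : j < 4), v = vx K i j hi hj := by
  refine ⟨v / 4, v % 4, by omega, by omega, ?_⟩
  apply Fin.ext
  simp only [vx]
  omega

lemma vx_eq_iff {K i j i' j' : ℕ} (hi : i < K) (hj : j < 4) (hi' : i' < K) (hj' : j' < 4) :
    vx K i j hi hj = vx K i' j' hi' hj' ↔ i = i' ∧ j = j' := by
  simp only [vx, Fin.mk.injEq]
  omega

lemma vx_ne {K i j i' j' : ℕ} (hi : i < K) (hj : j < 4) (hi' : i' < K) (hj' : j' < 4)
    (h : vx K i j hi hj ≠ vx K i' j' hi' hj') : ¬ (i = i' ∧ j = j') :=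
  fun h' => h ((vx_eq_iff hi hj hi' hj').2 h')

/-- The heights form an antichain. -/
lemma anti {K : ℕ} : ∀ u v : Fin (4 * K), u ≠ v → ∃ k, Fh K k u < Fh K k v := by
  intro u v huv
  obtain ⟨i, j, hi, hj, rfl⟩ := exists_vx u
  obtain ⟨i', j', hi', hj', rfl⟩ := exists_vx v
  have hne := vx_ne hi hj hi' hj' huv
  by_contra hcon
  push Not at hcon
  have h0 := hcon 0
  have h1 := hcon 1
  have h2 := hcon 2
  rw [Fh_vx, Fh_vx] at h0 h1 h2
  have e0 : ((0 : Fin 3) : ℕ) = 0 := rfl
  have e1 : ((1 : Fin 3) : ℕ) = 1 := rfl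
  have e2 : ((2 : Fin 3) : ℕ) = 2 := rfl
  rw [e0] at h0; rw [e1] at h1; rw [e2] at h2
  interval_cases j <;> interval_cases j' <;> simp only [ht] at h0 h1 h2 <;> omega

/-- Three vertices `x`, `y`, `z` (highest for the heights `0`, `1`, `2` respectively) that form a
frame. -/
def Fr (K : ℕ) (x y z : Fin (4 * K)) : Prop :=
  (∀ k l : Fin 3, l ≠ k → Fh K k ((![x, y, z] : Fin 3 → Fin (4 * K)) l) <
    Fh K k ((![x, y, z] : Fin 3 → Fin (4 * K)) k)) ∧
  ∀ v, (∀ k, v ≠ (![x, y, z] : Fin 3 → Fin (4 * K)) k) →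
    ∃ k, Fh K k ((![x, y, z] : Fin 3 → Fin (4 * K)) k) < Fh K k v

lemma Fr_of {K i0 j0 i1 j1 i2 j2 : ℕ} (h0 : i0 < K) (h0' : j0 < 4) (h1 : i1 < K) (h1' : j1 < 4)
    (h2 : i2 < K) (h2' : j2 < 4)
    (a01 : ht K 0 i1 j1 < ht K 0 i0 j0) (a02 : ht K 0 i2 j2 < ht K 0 i0 j0)
    (a10 : ht K 1 i0 j0 < ht K 1 i1 j1) (a12 : ht K 1 i2 j2 < ht K 1 i1 j1)
    (a20 : ht K 2 i0 j0 < ht K 2 i2 j2) (a21 : ht K 2 i1 j1 < ht K 2 i2 j2)
    (hv : ∀ i j, i < K → j < 4 → ¬ (i = i0 ∧ j = j0) → ¬ (i = i1 ∧ j = j1) →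
      ¬ (i = i2 ∧ j = j2) → ht K 0 i0 j0 < ht K 0 i j ∨ ht K 1 i1 j1 < ht K 1 i j ∨
        ht K 2 i2 j2 < ht K 2 i j) :
    Fr K (vx K i0 j0 h0 h0') (vx K i1 j1 h1 h1') (vx K i2 j2 h2 h2') := by
  constructor
  · intro k l hkl
    fin_cases k <;> fin_cases l <;> first | exact absurd rfl hkl | skip
    all_goals
      simp only [Fin.zero_eta, Fin.mk_one, Fin.reduceFinMk, Matrix.cons_val_zero,
        Matrix.cons_val_one, Matrix.cons_val, Fh_vx, Fin.val_zero, Fin.val_one, Fin.val_two]
      assumption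
  · intro v hne
    obtain ⟨i, j, hi, hj, rfl⟩ := exists_vx v
    have n0 := vx_ne hi hj h0 h0' (hne 0)
    have n1 := vx_ne hi hj h1 h1' (hne 1)
    have n2 := vx_ne hi hj h2 h2' (hne 2)
    rcases hv i j hi hj n0 n1 n2 with h | h | h
    · refine ⟨0, ?_⟩
      rw [Fh_vx]
      show Fh K 0 (vx K i0 j0 h0 h0') < _
      rw [Fh_vx]; exact h
    · refine ⟨1, ?_⟩
      rw [Fh_vx]
      show Fh K 1 (vx K i1 j1 h1 h1') < _
      rw [Fh_vx]; exact h
    · refine ⟨2, ?_⟩
      rw [Fh_vx]
      show Fh K 2 (vx K i2 j2 h2 h2') < _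
      rw [Fh_vx]; exact h

/-- the eight families of facets -/
lemma fr_A {K i : ℕ} (hi : i < K) :
    Fr K (vx K i 2 hi (by omega)) (vx K i 0 hi (by omega)) (vx K i 3 hi (by omega)) := by
  apply Fr_of <;> simp only [ht] <;> first | omega | skip
  intro i' j' hi' hj' n0 n1 n2
  interval_cases j' <;> simp only [ht] <;> omega

lemma fr_B {K i : ℕ} (hi : i < K) :
    Fr K (vx K i 2 hi (by omega)) (vx K i 3 hi (by omega)) (vx K i 1 hi (by omega)) := by
  apply Fr_of <;> simp only [ht] <;> first | omega | skip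
  intro i' j' hi' hj' n0 n1 n2
  interval_cases j' <;> simp only [ht] <;> omega

lemma fr_1 {K i : ℕ} (hi : i + 1 < K) :
    Fr K (vx K i 3 (by omega) (by omega)) (vx K i 0 (by omega) (by omega))
      (vx K (i + 1) 2 hi (by omega)) := by
  apply Fr_of <;> simp only [ht] <;> first | omega | skip
  intro i' j' hi' hj' n0 n1 n2
  interval_cases j' <;> simp only [ht] <;> omega

lemma fr_2 {K i : ℕ} (hi : i + 1 < K) :
    Fr K (vx K (i + 1) 0 hi (by omega)) (vx K i 0 (by omega) (by omega))
      (vx K i 1 (by omega) (by omega)) := by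
  apply Fr_of <;> simp only [ht] <;> first | omega | skip
  intro i' j' hi' hj' n0 n1 n2
  interval_cases j' <;> simp only [ht] <;> omega

lemma fr_3 {K i : ℕ} (hi : i + 1 < K) :
    Fr K (vx K i 3 (by omega) (by omega)) (vx K (i + 1) 1 hi (by omega))
      (vx K i 1 (by omega) (by omega)) := by
  apply Fr_of <;> simp only [ht] <;> first | omega | skip
  intro i' j' hi' hj' n0 n1 n2
  interval_cases j' <;> simp only [ht] <;> omega

lemma fr_4 {K i : ℕ} (hi : i + 1 < K) :
    Fr K (vx K i 3 (by omega) (by omega)) (vx K (i + 1) 2 hi (by omega))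
      (vx K (i + 1) 1 hi (by omega)) := by
  apply Fr_of <;> simp only [ht] <;> first | omega | skip
  intro i' j' hi' hj' n0 n1 n2
  interval_cases j' <;> simp only [ht] <;> omega

lemma fr_5 {K i : ℕ} (hi : i + 1 < K) :
    Fr K (vx K (i + 1) 2 hi (by omega)) (vx K i 0 (by omega) (by omega))
      (vx K (i + 1) 0 hi (by omega)) := by
  apply Fr_of <;> simp only [ht] <;> first | omega | skip
  intro i' j' hi' hj' n0 n1 n2
  interval_cases j' <;> simp only [ht] <;> omega

lemma fr_6 {K i : ℕ} (hi : i + 1 < K) :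
    Fr K (vx K (i + 1) 1 hi (by omega)) (vx K (i + 1) 0 hi (by omega))
      (vx K i 1 (by omega) (by omega)) := by
  apply Fr_of <;> simp only [ht] <;> first | omega | skip
  intro i' j' hi' hj' n0 n1 n2
  interval_cases j' <;> simp only [ht] <;> omega

/-- The counting argument. -/
lemma count {K : ℕ} (M : ℕ → Bool)
    (hA : ∀ i, i < K → (M (4 * i + 2) || M (4 * i) || M (4 * i + 3)) = true)
    (hB : ∀ i, i < K → (M (4 * i + 2) || M (4 * i + 3) || M (4 * i + 1)) = true)
    (h1 : ∀ i, i + 1 < K → (M (4 * i + 3) || M (4 * i) || M (4 * (i + 1) + 2)) = true)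
    (h2 : ∀ i, i + 1 < K → (M (4 * (i + 1)) || M (4 * i) || M (4 * i + 1)) = true)
    (h3 : ∀ i, i + 1 < K → (M (4 * i + 3) || M (4 * (i + 1) + 1) || M (4 * i + 1)) = true)
    (h4 : ∀ i, i + 1 < K → (M (4 * i + 3) || M (4 * (i + 1) + 2) || M (4 * (i + 1) + 1)) = true)
    (h5 : ∀ i, i + 1 < K → (M (4 * (i + 1) + 2) || M (4 * i) || M (4 * (i + 1))) = true)
    (h6 : ∀ i, i + 1 < K → (M (4 * (i + 1) + 1) || M (4 * (i + 1)) || M (4 * i + 1)) = true) :
    2 * K ≤ (∑ v ∈ Finset.range (4 * K), (M v).toNat) + 2 := by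
  -- `U i`: only the vertex `4 i + 2` of block `i` is chosen; `V i`: only `4 i + 3`
  let U : ℕ → ℕ := fun i => (M (4 * i + 2) && !M (4 * i) && !M (4 * i + 1) && !M (4 * i + 3)).toNat
  let V : ℕ → ℕ := fun i => (M (4 * i + 3) && !M (4 * i) && !M (4 * i + 1) && !M (4 * i + 2)).toNat
  let t : ℕ → ℕ := fun i => (M (4 * i)).toNat + (M (4 * i + 1)).toNat + (M (4 * i + 2)).toNat +
    (M (4 * i + 3)).toNat
  have hsum : ∀ m, ∑ v ∈ Finset.range (4 * m), (M v).toNat = ∑ i ∈ Finset.range m, t i := by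
    intro m
    induction m with
    | zero => simp
    | succ m ih =>
      rw [Finset.sum_range_succ, ← ih, show 4 * (m + 1) = 4 * m + 1 + 1 + 1 + 1 by ring,
        Finset.sum_range_succ, Finset.sum_range_succ, Finset.sum_range_succ, Finset.sum_range_succ]
      simp only [t]
      ring
  have key : ∀ (a b c s : Bool) (p q : Bool), (c || a || s) = true → (c || s || b) = true →
      (p = true → a = true ∧ b = true ∧ c = true) →
      (q = true → s = true ∧ a = true ∧ b = true) →
      2 + p.toNat + q.toNat ≤ a.toNat + b.toNat + c.toNat + s.toNat +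
        (c && !a && !b && !s).toNat + (s && !a && !b && !c).toNat := by
    decide
  have keyU : ∀ (a b s a' b' c' : Bool), (a || b || s) = false → (s || a || c') = true →
      (a' || a || b) = true → (s || b' || b) = true → a' = true ∧ b' = true ∧ c' = true := by
    decide
  have keyV : ∀ (a b s a' b' c' : Bool), (a' || b' || c') = false → (s || c' || b') = true →
      (c' || a || a') = true → (b' || a' || b) = true → s = true ∧ a = true ∧ b = true := by
    decide
  have hind : ∀ m, m ≤ K → 2 * m + (if m < K then V m else 0) ≤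
      (∑ i ∈ Finset.range m, t i) + (if m = 0 then 0 else U (m - 1)) + V 0 := by
    intro m
    induction m with
    | zero =>
      intro _
      simp only [Finset.range_zero, Finset.sum_empty, if_true]
      split_ifs <;> omega
    | succ m ih =>
      intro hm
      have ih' := ih (by omega)
      rw [if_pos (by omega : m < K)] at ih'
      rw [Finset.sum_range_succ, if_neg (by omega : ¬ m + 1 = 0)]
      simp only [Nat.add_sub_cancel]
      -- the bits describing the neighbours
      obtain ⟨p, hp, hp'⟩ : ∃ p : Bool, (if m = 0 then 0 else U (m - 1)) = p.toNat ∧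
          (p = true → M (4 * m) = true ∧ M (4 * m + 1) = true ∧ M (4 * m + 2) = true) := by
        by_cases h0 : m = 0
        · exact ⟨false, by simp [h0], by simp⟩
        · obtain ⟨m', rfl⟩ := Nat.exists_eq_succ_of_ne_zero h0
          refine ⟨M (4 * m' + 2) && !M (4 * m') && !M (4 * m' + 1) && !M (4 * m' + 3), ?_, ?_⟩
          · rw [if_neg h0]; rfl
          · intro h
            have e1 := h1 m' (by omega)
            have e2 := h2 m' (by omega)
            have e3 := h3 m' (by omega)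
            simp only [Bool.and_eq_true, Bool.not_eq_true'] at h
            refine keyU (M (4 * m')) (M (4 * m' + 1)) (M (4 * m' + 3)) _ _ _ ?_ e1 e2 e3
            simp [h.1.1.2, h.1.2, h.2]
      obtain ⟨q, hq, hq'⟩ : ∃ q : Bool, (if m + 1 < K then V (m + 1) else 0) = q.toNat ∧
          (q = true → M (4 * m + 3) = true ∧ M (4 * m) = true ∧ M (4 * m + 1) = true) := by
        by_cases h0 : m + 1 < K
        · refine ⟨M (4 * (m + 1) + 3) && !M (4 * (m + 1)) && !M (4 * (m + 1) + 1) &&
            !M (4 * (m + 1) + 2), ?_, ?_⟩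
          · rw [if_pos h0]
          · intro h
            have e4 := h4 m h0
            have e5 := h5 m h0
            have e6 := h6 m h0
            simp only [Bool.and_eq_true, Bool.not_eq_true'] at h
            refine keyV _ _ _ (M (4 * (m + 1))) (M (4 * (m + 1) + 1)) (M (4 * (m + 1) + 2)) ?_
              e4 e5 e6
            simp [h.1.1.2, h.1.2, h.2]
        · exact ⟨false, by simp [h0], by simp⟩
      rw [hp] at ih'
      rw [hq]
      have hk := key (M (4 * m)) (M (4 * m + 1)) (M (4 * m + 2)) (M (4 * m + 3)) p q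
        (hA m (by omega)) (hB m (by omega)) hp' hq'
      have hV : V m = (M (4 * m + 3) && !M (4 * m) && !M (4 * m + 1) && !M (4 * m + 2)).toNat := rfl
      have hU : U m = (M (4 * m + 2) && !M (4 * m) && !M (4 * m + 1) && !M (4 * m + 3)).toNat := rfl
      have ht' : t m = (M (4 * m)).toNat + (M (4 * m + 1)).toNat + (M (4 * m + 2)).toNat +
        (M (4 * m + 3)).toNat := rfl
      rw [hU, ht']
      rw [hV] at ih'
      omega
  have hfin := hind K le_rfl
  rw [if_neg (lt_irrefl K), hsum] at *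
  have hU1 : ∀ i, U i ≤ 1 := fun i => Bool.toNat_le _
  have hV1 : ∀ i, V i ≤ 1 := fun i => Bool.toNat_le _
  have := hV1 0
  have h7 : (if K = 0 then 0 else U (K - 1)) ≤ 1 := by
    split_ifs
    · omega
    · exact hU1 _
  omega

/-- The polytope with `4 K` vertices. -/
theorem exists_polytope3 (K : ℕ) (hK : 0 < K) : ∃ p : Fin (4 * K) → E 3, IsSimplicialPolytope 3 p ∧
    1 / 2 - 1 / (2 * K : ℝ) ≤ transversalRatio (boundary p) := by
  classical
  obtain ⟨s, hs, hF, hgp⟩ := exists_paramD (by omega : 0 < 3) (Fh K)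
  have hp := isSimplicialPolytope_pt (by omega : 0 < 3) (by omega) (Fh K) anti hs hF hgp
  refine ⟨pt (Fh K) s, hp, ?_⟩
  have hΔ := isComplex_boundary (by omega : 0 < 3) hp
  have hne : {k | ∃ W, IsTransversal (boundary (pt (Fh K) s)) W ∧ W.card = k}.Nonempty := by
    refine ⟨_, Finset.univ, ?_, rfl⟩
    intro t ht
    have hne : t.Nonempty := by
      by_contra hcon
      rw [Finset.not_nonempty_iff_eq_empty] at hcon
      have := ht.2 {⟨0, by omega⟩} (hΔ.vert _) (by rw [hcon]; exact Finset.empty_subset _)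
      rw [hcon] at this
      exact Finset.singleton_ne_empty _ this
    obtain ⟨v, hv⟩ := hne
    exact ⟨v, hv, Finset.mem_univ v⟩
  obtain ⟨W, hW, hWcard⟩ := Nat.sInf_mem hne
  have hfr : ∀ x y z, Fr K x y z → (x ∈ W ∨ y ∈ W ∨ z ∈ W) := by
    intro x y z hxyz
    obtain ⟨v, hv1, hv2⟩ := hW _ (isFacet_of_frame (by omega : 0 < 3) (Fh K) hs hF hp
      (![x, y, z] : Fin 3 → Fin (4 * K)) hxyz.1 hxyz.2)
    simp only [Finset.mem_image, Finset.mem_univ, true_and] at hv1
    obtain ⟨k, rfl⟩ := hv1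
    fin_cases k
    · exact Or.inl hv2
    · exact Or.inr (Or.inl hv2)
    · exact Or.inr (Or.inr hv2)
  -- the indicator of `W`
  let M : ℕ → Bool := fun v => decide (∃ h : v < 4 * K, (⟨v, h⟩ : Fin (4 * K)) ∈ W)
  have hM : ∀ i j (hi : i < K) (hj : j < 4), vx K i j hi hj ∈ W → M (4 * i + j) = true := by
    intro i j hi hj h
    simp only [M, decide_eq_true_eq]
    exact ⟨_, h⟩
  have hM0 : ∀ i (hi : i < K), vx K i 0 hi (by omega) ∈ W → M (4 * i) = true := by
    intro i hi h
    exact hM i 0 hi (by omega) h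
  have hcount := count (K := K) M
    (by
      intro i hi
      rcases hfr _ _ _ (fr_A hi) with h | h | h
      · simp [hM _ _ _ _ h]
      · simp [hM0 _ _ h]
      · simp [hM _ _ _ _ h])
    (by
      intro i hi
      rcases hfr _ _ _ (fr_B hi) with h | h | h
      · simp [hM _ _ _ _ h]
      · simp [hM _ _ _ _ h]
      · simp [hM _ _ _ _ h])
    (by
      intro i hi
      rcases hfr _ _ _ (fr_1 hi) with h | h | h
      · simp [hM _ _ _ _ h]
      · simp [hM0 _ _ h]
      · simp [hM _ _ _ _ h])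
    (by
      intro i hi
      rcases hfr _ _ _ (fr_2 hi) with h | h | h
      · simp [hM0 _ _ h]
      · simp [hM0 _ _ h]
      · simp [hM _ _ _ _ h])
    (by
      intro i hi
      rcases hfr _ _ _ (fr_3 hi) with h | h | h
      · simp [hM _ _ _ _ h]
      · simp [hM _ _ _ _ h]
      · simp [hM _ _ _ _ h])
    (by
      intro i hi
      rcases hfr _ _ _ (fr_4 hi) with h | h | h
      · simp [hM _ _ _ _ h]
      · simp [hM _ _ _ _ h]
      · simp [hM _ _ _ _ h])
    (by
      intro i hi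
      rcases hfr _ _ _ (fr_5 hi) with h | h | h
      · simp [hM _ _ _ _ h]
      · simp [hM0 _ _ h]
      · simp [hM0 _ _ h])
    (by
      intro i hi
      rcases hfr _ _ _ (fr_6 hi) with h | h | h
      · simp [hM _ _ _ _ h]
      · simp [hM0 _ _ h]
      · simp [hM _ _ _ _ h])
  have hWsum : ∑ v ∈ Finset.range (4 * K), (M v).toNat = W.card := by
    rw [Finset.sum_range]
    have : ∀ v : Fin (4 * K), (M (v : ℕ)).toNat = if v ∈ W then 1 else 0 := by
      intro v
      by_cases hv : v ∈ W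
      · have : M (v : ℕ) = true := by
          simp only [M, decide_eq_true_eq]
          exact ⟨v.2, hv⟩
        simp [this, hv]
      · have : M (v : ℕ) = false := by
          simp only [M, decide_eq_false_iff_not]
          rintro ⟨h, h'⟩
          exact hv h'
        simp [this, hv]
    simp_rw [this]
    simp
  rw [hWsum, hWcard] at hcount
  unfold transversalRatio
  have hKR : (0 : ℝ) < K := by exact_mod_cast hK
  have h1 : (2 * K : ℝ) ≤ (transversalNumber (boundary (pt (Fh K) s)) : ℝ) + 2 := by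
    exact_mod_cast hcount
  rw [le_div_iff₀ (by push_cast; positivity)]
  push_cast
  have h2 : (1 / 2 - 1 / (2 * K : ℝ)) * (4 * K) = 2 * K - 2 := by
    field_simp
    ring
  rw [h2]
  linarith

/-- limit superior of suprema of sets of ratios reaching arbitrarily close to one half -/
lemma half_le_limsup (A : ℕ → Set ℝ) (hle : ∀ n, ∀ t ∈ A n, t ≤ 1)
    (hge : ∀ K : ℕ, 0 < K → ∃ t ∈ A (4 * K), 1 / 2 - 1 / (2 * K : ℝ) ≤ t) :
    1 / 2 ≤ limsup (fun n => sSup (A n)) atTop := by
  have hu : ∀ n, sSup (A n) ≤ 1 := fun n => Real.sSup_le (hle n) zero_le_one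
  have hbdd : IsBoundedUnder (· ≤ ·) atTop (fun n => sSup (A n)) :=
    isBoundedUnder_of ⟨1, hu⟩
  apply le_of_forall_pos_le_add
  intro ε hε
  rw [← sub_le_iff_le_add]
  refine le_limsup_of_frequently_le ?_ hbdd
  rw [frequently_atTop]
  intro N
  obtain ⟨q, hq⟩ := exists_nat_gt (1 / ε)
  have hqpos : (0 : ℝ) < q := lt_trans (by positivity) hq
  set K := N + q + 1 with hKdef
  obtain ⟨t, ht, h1⟩ := hge K (by omega)
  refine ⟨4 * K, by omega, le_trans ?_ (le_csSup ⟨1, fun x hx => hle _ x hx⟩ ht)⟩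
  refine le_trans ?_ h1
  have h2 : (q : ℝ) ≤ K := by rw [hKdef]; push_cast; have : (0 : ℝ) ≤ N := Nat.cast_nonneg N; linarith
  have h3 : 1 / (2 * K : ℝ) ≤ ε := by
    rw [div_le_iff₀ (by linarith)]
    rw [div_lt_iff₀ hε] at hq
    nlinarith
  linarith

theorem half_le_tauP_three : 1 / 2 ≤ tauP 3 := by
  apply half_le_limsup
  · rintro n t ⟨p, hp, rfl⟩
    exact transversalRatio_le_one (isComplex_boundary (by omega) hp)
  · intro K hK
    obtain ⟨p, hp, h⟩ := exists_polytope3 K hK
    exact ⟨_, ⟨p, hp, rfl⟩, h⟩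

theorem half_le_tauS_three : 1 / 2 ≤ tauS 3 := by
  apply half_le_limsup
  · rintro n t ⟨Δ, hΔ, rfl⟩
    exact transversalRatio_le_one hΔ.1
  · intro K hK
    obtain ⟨p, hp, h⟩ := exists_polytope3 K hK
    exact ⟨_, ⟨boundary p, isSimplicialSphere_boundary (by omega) hp, rfl⟩, h⟩

/-- transversal ratios are at most one -/
theorem tauP_le_one (d : ℕ) (hd : 0 < d) : tauP d ≤ 1 := by
  have h0 : ∀ n, 0 ≤ sSup {t : ℝ | ∃ p : Fin n → E d,
      IsSimplicialPolytope d p ∧ t = transversalRatio (boundary p)} := by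
    intro n
    apply Real.sSup_nonneg
    rintro _ ⟨p, -, rfl⟩
    exact transversalRatio_nonneg _
  unfold tauP
  refine limsup_le_of_le (IsCoboundedUnder.of_frequently_ge (a := 0)
    (Frequently.of_forall h0)) (Eventually.of_forall fun n => ?_)
  apply Real.sSup_le _ zero_le_one
  rintro _ ⟨p, hp, rfl⟩
  exact transversalRatio_le_one (isComplex_boundary hd hp)

theorem tauS_le_one (d : ℕ) : tauS d ≤ 1 := by
  have h0 : ∀ n, 0 ≤ sSup {t : ℝ | ∃ Δ : Set (Finset (Fin n)),
      IsSimplicialSphere d Δ ∧ t = transversalRatio Δ} := by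
    intro n
    apply Real.sSup_nonneg
    rintro _ ⟨p, -, rfl⟩
    exact transversalRatio_nonneg _
  unfold tauS
  refine limsup_le_of_le (IsCoboundedUnder.of_frequently_ge (a := 0)
    (Frequently.of_forall h0)) (Eventually.of_forall fun n => ?_)
  apply Real.sSup_le _ zero_le_one
  rintro _ ⟨Δ, hΔ, rfl⟩
  exact transversalRatio_le_one hΔ.1

end Pool.Agent.Y362.TR
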